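import Mathlib

set_option autoImplicit false

/-!
# Exponential growth of `m(k, k - 1)`

For `k ≥ 5` we use the following construction: take a tournament on `k` vertices in which all
out-degrees are `k / 2` or `k / 2 - 1`, replace the vertex `j` by a block `X j` of
`k - outdeg j` points, and take all sets consisting of one block `X i` and one point of each block
`X j` with `i → j`.  For `k = 3, 4` we use projective planes of order `2, 3`.
-/

namespace Pool.Agent.Results.MP_2b3591_co.ExponentialGrowth

open Finset

/-- `𝓕` is an intersecting family of `k`-subsets of `[n]` with covering number `k`. -/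
def Fam (k n : ℕ) (𝓕 : Finset (Finset (Fin n))) : Prop :=
  (∀ F ∈ 𝓕, F.card = k) ∧ (∀ F ∈ 𝓕, ∀ F' ∈ 𝓕, (F ∩ F').Nonempty) ∧
    IsLeast {t : ℕ | ∃ T : Finset (Fin n), T.card = t ∧ ∀ F ∈ 𝓕, (T ∩ F).Nonempty} k

/-- `m(k, a)`: the supremum, over all `n` and all intersecting `k`-uniform families on `[n]` with
covering number `k`, of the minimum over all `a`-sets `B` of the number of members disjoint
from `B`. -/
noncomputable def m (k a : ℕ) : ℕ∞ :=
  ⨆ (n : ℕ) (𝓕 : Finset (Finset (Fin n))) (_ : Fam k n 𝓕),
    ⨅ (B : Finset (Fin n)) (_ : B.card = a), ((𝓕.filter (fun F => Disjoint F B)).card : ℕ∞)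

/-- a lower bound for `m(k, k - 1)` from a family on any finite set -/
lemma le_m {α : Type*} [Fintype α] [DecidableEq α] {k t : ℕ} (hk : 1 ≤ k) (ht : 1 ≤ t)
    (𝓕 : Finset (Finset α)) (h1 : ∀ F ∈ 𝓕, F.card = k)
    (h2 : ∀ F ∈ 𝓕, ∀ F' ∈ 𝓕, (F ∩ F').Nonempty)
    (h3 : ∀ B : Finset α, B.card ≤ k - 1 → t ≤ (𝓕.filter (fun F => Disjoint F B)).card) :
    (t : ℕ∞) ≤ m k (k - 1) := by
  classical
  let e : α ≃ Fin (Fintype.card α) := Fintype.equivFin α
  let 𝓖 : Finset (Finset (Fin (Fintype.card α))) := 𝓕.image (fun F => F.map e.toEmbedding)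
  have hmem : ∀ G ∈ 𝓖, ∃ F ∈ 𝓕, G = F.map e.toEmbedding := by
    intro G hG
    obtain ⟨F, hF, h⟩ := mem_image.1 hG
    exact ⟨F, hF, h.symm⟩
  have h3' : ∀ B : Finset (Fin (Fintype.card α)), B.card ≤ k - 1 →
      t ≤ (𝓖.filter (fun F => Disjoint F B)).card := by
    intro B hB
    have hc : (B.map e.symm.toEmbedding).card ≤ k - 1 := by rwa [card_map]
    refine (h3 _ hc).trans ?_
    refine card_le_card_of_injOn (fun F => F.map e.toEmbedding) ?_ ?_
    · intro F hF
      rw [mem_coe, mem_filter] at hF ⊢
      refine ⟨mem_image_of_mem _ hF.1, ?_⟩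
      rw [Finset.disjoint_left]
      intro x hx hxB
      obtain ⟨y, hy, rfl⟩ := mem_map.1 hx
      refine Finset.disjoint_left.1 hF.2 hy ?_
      rw [mem_map]
      exact ⟨_, hxB, by simp⟩
    · intro F _ F' _ h
      exact map_injective _ h
  have hFam : Fam k (Fintype.card α) 𝓖 := by
    refine ⟨?_, ?_, ?_, ?_⟩
    · intro G hG
      obtain ⟨F, hF, rfl⟩ := hmem G hG
      rw [card_map]
      exact h1 F hF
    · intro G hG G' hG'
      obtain ⟨F, hF, rfl⟩ := hmem G hG
      obtain ⟨F', hF', rfl⟩ := hmem G' hG'
      obtain ⟨x, hx⟩ := h2 F hF F' hF'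
      rw [mem_inter] at hx
      exact ⟨e x, mem_inter.2 ⟨mem_map_of_mem _ hx.1, mem_map_of_mem _ hx.2⟩⟩
    · -- a member is a cover
      have hne : 0 < (𝓕.filter (fun F => Disjoint F ∅)).card := lt_of_lt_of_le ht (h3 ∅ (by simp))
      obtain ⟨F, hF⟩ := card_pos.1 hne
      rw [mem_filter] at hF
      refine ⟨F.map e.toEmbedding, by rw [card_map]; exact h1 F hF.1, ?_⟩
      intro G' hG'
      obtain ⟨F', hF', rfl⟩ := hmem G' hG'
      obtain ⟨x, hx⟩ := h2 F hF.1 F' hF'
      rw [mem_inter] at hx
      exact ⟨e x, mem_inter.2 ⟨mem_map_of_mem _ hx.1, mem_map_of_mem _ hx.2⟩⟩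
    · rintro s ⟨T, hT, hcov⟩
      by_contra hlt
      have h4 := h3' T (by omega)
      have h5 : 0 < (𝓖.filter (fun F => Disjoint F T)).card := by omega
      obtain ⟨G, hG⟩ := card_pos.1 h5
      rw [mem_filter] at hG
      obtain ⟨x, hx⟩ := hcov G hG.1
      rw [mem_inter] at hx
      exact Finset.disjoint_left.1 hG.2 hx.2 hx.1
  unfold m
  refine le_iSup_of_le (Fintype.card α) (le_iSup_of_le 𝓖 (le_iSup_of_le hFam ?_))
  refine le_iInf fun B => le_iInf fun hB => ?_
  exact_mod_cast h3' B hB.le

/-! ### The tournament construction -/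

section Tournament

variable {k : ℕ}

/-- `i → j` -/
def adj (i j : Fin k) : Prop :=
  (i.1 < j.1 ∧ (i.1 + j.1) % 2 = 1) ∨ (j.1 < i.1 ∧ (i.1 + j.1) % 2 = 0)

instance (i j : Fin k) : Decidable (adj i j) := by unfold adj; infer_instance

lemma adj_irrefl (i : Fin k) : ¬ adj i i := by unfold adj; omega

lemma adj_total {i j : Fin k} (h : i ≠ j) : adj i j ∨ adj j i := by
  have : i.1 ≠ j.1 := fun h' => h (Fin.ext h')
  unfold adj; omega

lemma adj_asymm {i j : Fin k} (h : adj i j) : ¬ adj j i := by
  unfold adj at *; omega

/-- the out-neighbours -/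
def N (i : Fin k) : Finset (Fin k) := univ.filter (fun j => adj i j)

/-- the size of the block `X i` -/
def w (i : Fin k) : ℕ := k - (N i).card

lemma card_N (i : Fin k) : (N i).card = (k - i.1) / 2 + i.1 / 2 := by
  classical
  have hi := i.2
  have h1 : (N i).card = ((range ((k - i.1) / 2)).image (fun a => i.1 + 1 + 2 * a)
      ∪ (range (i.1 / 2)).image (fun a => i.1 - 2 - 2 * a)).card := by
    refine card_bij (fun j _ => j.1) ?_ ?_ ?_
    · intro j hj
      simp only [N, adj, mem_filter, mem_univ, true_and] at hj
      have := j.2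
      rw [mem_union, mem_image, mem_image]
      rcases hj with ⟨h, h'⟩ | ⟨h, h'⟩
      · left
        exact ⟨(j.1 - i.1 - 1) / 2, mem_range.2 (by omega), by omega⟩
      · right
        exact ⟨(i.1 - 2 - j.1) / 2, mem_range.2 (by omega), by omega⟩
    · intro a _ b _ h
      exact Fin.ext h
    · intro j hj
      rw [mem_union, mem_image, mem_image] at hj
      rcases hj with ⟨a, ha, rfl⟩ | ⟨a, ha, rfl⟩
      · rw [mem_range] at ha
        refine ⟨⟨i.1 + 1 + 2 * a, by omega⟩, ?_, rfl⟩
        simp only [N, adj, mem_filter, mem_univ, true_and]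
        omega
      · rw [mem_range] at ha
        refine ⟨⟨i.1 - 2 - 2 * a, by omega⟩, ?_, rfl⟩
        simp only [N, adj, mem_filter, mem_univ, true_and]
        omega
  rw [h1, card_union_of_disjoint, card_image_of_injOn, card_image_of_injOn, card_range, card_range]
  · intro a ha b hb h
    simp only [coe_range, Set.mem_Iio] at ha hb h
    omega
  · intro a ha b hb h
    simp only [coe_range, Set.mem_Iio] at ha hb h
    omega
  · rw [Finset.disjoint_left]
    intro x hx hx'
    rw [mem_image] at hx hx'
    obtain ⟨a, ha, h⟩ := hx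
    obtain ⟨b, hb, h'⟩ := hx'
    rw [mem_range] at ha hb
    omega

lemma card_N_le (i : Fin k) : (N i).card ≤ k / 2 := by
  rw [card_N]
  have := i.2
  omega

lemma le_card_N (i : Fin k) : k / 2 - 1 ≤ (N i).card := by
  rw [card_N]
  have := i.2
  omega

lemma card_N_lt (i : Fin k) : (N i).card < k := by
  have h1 := card_N_le i
  have := i.2
  omega

/-- in-degree plus out-degree -/
lemma card_in (j : Fin k) : (univ.filter (fun i => adj i j)).card + 1 = w j := by
  classical
  have h1 : (univ : Finset (Fin k)) = insert j (univ.filter (fun i => adj i j) ∪ N j) := by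
    ext i
    simp only [mem_univ, mem_insert, mem_union, mem_filter, true_and, N, true_iff]
    by_cases h : i = j
    · exact Or.inl h
    · exact Or.inr (adj_total h)
  have h2 : j ∉ univ.filter (fun i => adj i j) ∪ N j := by
    simp only [mem_union, mem_filter, mem_univ, true_and, N, not_or]
    exact ⟨adj_irrefl j, adj_irrefl j⟩
  have h3 : Disjoint (univ.filter (fun i => adj i j)) (N j) := by
    rw [Finset.disjoint_left]
    intro i hi hi'
    simp only [mem_filter, mem_univ, true_and, N] at hi hi'
    exact adj_asymm hi hi'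
  have h4 := congrArg card h1
  rw [card_insert_of_notMem h2, card_union_of_disjoint h3, card_univ, Fintype.card_fin] at h4
  unfold w
  omega

lemma w_pos (i : Fin k) : 1 ≤ w i := by
  have := card_in i
  omega

lemma w_add (i : Fin k) : w i + (N i).card = k := by
  unfold w
  have := card_N_lt i
  omega

lemma w_ge (i : Fin k) : k - k / 2 ≤ w i := by
  unfold w
  have := card_N_le i
  omega

lemma w_le (i : Fin k) : w i ≤ k := by
  unfold w
  omega

/-- the block `X j` -/
def block (j : Fin k) : Finset (Fin k × Fin k) := univ.filter (fun p => p.1 = j ∧ p.2.1 < w j)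

lemma card_block (j : Fin k) : (block j).card = w j := by
  have h : (block j).card = (range (w j)).card := by
    refine card_bij (fun p _ => p.2.1) ?_ ?_ ?_
    · intro p hp
      simp only [block, mem_filter, mem_univ, true_and] at hp
      exact mem_range.2 hp.2
    · intro p hp q hq h
      simp only [block, mem_filter, mem_univ, true_and] at hp hq
      exact Prod.ext (hp.1.trans hq.1.symm) (Fin.ext h)
    · intro a ha
      rw [mem_range] at ha
      have := w_le j
      refine ⟨(j, ⟨a, by omega⟩), ?_, rfl⟩
      simp only [block, mem_filter, mem_univ, true_and]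
      exact ha
  rw [h, card_range]

/-- the member given by the vertex `i` and the choice function `g` -/
def edge (i : Fin k) (g : Fin k → Fin k) : Finset (Fin k × Fin k) :=
  block i ∪ (N i).image (fun j => (j, g j))

lemma mem_edge {i : Fin k} {g : Fin k → Fin k} {p : Fin k × Fin k} :
    p ∈ edge i g ↔ p ∈ block i ∨ (adj i p.1 ∧ p.2 = g p.1) := by
  simp only [edge, mem_union, mem_image, N, mem_filter, mem_univ, true_and]
  constructor
  · rintro (h | ⟨j, hj, rfl⟩)
    · exact Or.inl h
    · exact Or.inr ⟨hj, rfl⟩
  · rintro (h | ⟨h1, h2⟩)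
    · exact Or.inl h
    · exact Or.inr ⟨p.1, h1, Prod.ext rfl h2.symm⟩

lemma card_edge (i : Fin k) (g : Fin k → Fin k) : (edge i g).card = k := by
  classical
  unfold edge
  rw [card_union_of_disjoint, card_block, card_image_of_injective, w_add]
  · intro a b h
    exact (Prod.mk.inj h).1
  · rw [Finset.disjoint_left]
    intro p hp hp'
    simp only [block, mem_filter, mem_univ, true_and] at hp
    rw [mem_image] at hp'
    obtain ⟨j, hj, rfl⟩ := hp'
    simp only [N, mem_filter, mem_univ, true_and] at hj
    have hji : j = i := hp.1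
    rw [hji] at hj
    exact adj_irrefl _ hj

open Classical in
/-- the family -/
noncomputable def fam (k : ℕ) : Finset (Finset (Fin k × Fin k)) :=
  univ.filter (fun F => ∃ (i : Fin k) (g : Fin k → Fin k), (∀ j, (g j).1 < w j) ∧ F = edge i g)

lemma fam_inter (F F' : Finset (Fin k × Fin k)) (hF : F ∈ fam k) (hF' : F' ∈ fam k) :
    (F ∩ F').Nonempty := by
  classical
  simp only [fam, mem_filter, mem_univ, true_and] at hF hF'
  obtain ⟨i, g, hg, rfl⟩ := hF
  obtain ⟨i', g', hg', rfl⟩ := hF'
  by_cases h : i = i'
  · subst h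
    have h1 : 0 < (block i).card := by
      rw [card_block]
      exact w_pos i
    obtain ⟨p, hp⟩ := card_pos.1 h1
    exact ⟨p, mem_inter.2 ⟨mem_edge.2 (Or.inl hp), mem_edge.2 (Or.inl hp)⟩⟩
  · rcases adj_total h with h1 | h1
    · refine ⟨(i', g i'), mem_inter.2 ⟨mem_edge.2 (Or.inr ⟨h1, rfl⟩), mem_edge.2 (Or.inl ?_)⟩⟩
      simp only [block, mem_filter, mem_univ, true_and]
      exact hg i'
    · refine ⟨(i, g' i), mem_inter.2 ⟨mem_edge.2 (Or.inl ?_), mem_edge.2 (Or.inr ⟨h1, rfl⟩)⟩⟩
      simp only [block, mem_filter, mem_univ, true_and]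
      exact hg' i

/-- the number of points of `B` in the block `j` -/
def b (B : Finset (Fin k × Fin k)) (j : Fin k) : ℕ := (B ∩ block j).card

lemma b_le (B : Finset (Fin k × Fin k)) (j : Fin k) : b B j ≤ w j := by
  unfold b
  rw [← card_block j]
  exact card_le_card inter_subset_right

lemma sum_b_le (B : Finset (Fin k × Fin k)) : ∑ j, b B j ≤ B.card := by
  classical
  unfold b
  rw [← card_biUnion]
  · refine card_le_card ?_
    intro p hp
    rw [mem_biUnion] at hp
    obtain ⟨j, _, hp⟩ := hp
    exact (mem_inter.1 hp).1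
  · intro i _ j _ hij
    rw [Function.onFun, Finset.disjoint_left]
    intro p hp hp'
    have h1 := (mem_inter.1 hp).2
    have h2 := (mem_inter.1 hp').2
    simp only [block, mem_filter, mem_univ, true_and] at h1 h2
    exact hij (h1.1.symm.trans h2.1)

/-- the vertices whose members can avoid `B` -/
def good (B : Finset (Fin k × Fin k)) : Finset (Fin k) :=
  univ.filter (fun i => b B i = 0 ∧ ∀ j, adj i j → b B j < w j)

lemma card_good (B : Finset (Fin k × Fin k)) (hk : 1 ≤ k) (hB : B.card ≤ k - 1) :
    1 + ∑ j ∈ univ.filter (fun j => b B j < w j), (b B j - 1) ≤ (good B).card := by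
  classical
  set Z : Finset (Fin k) := univ.filter (fun j => b B j = 0) with hZ
  -- the number of empty blocks
  have h1 : ∑ j, b B j = ∑ j, (b B j - 1) + (univ.filter (fun j => ¬ b B j = 0)).card := by
    rw [card_filter, ← sum_add_distrib]
    refine sum_congr rfl fun j _ => ?_
    split_ifs with h
    · omega
    · omega
  have h2 := card_filter_add_card_filter_not (s := (univ : Finset (Fin k))) (fun j => b B j = 0)
  rw [card_univ, Fintype.card_fin, ← hZ] at h2
  have h3 := sum_b_le B
  have h4 : 1 + ∑ j, (b B j - 1) ≤ Z.card := by omega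
  -- bad empty blocks
  have h5 : Z \ good B ⊆ (univ.filter (fun j => ¬ b B j < w j)).biUnion
      (fun j => univ.filter (fun i => adj i j)) := by
    intro i hi
    simp only [mem_sdiff, hZ, good, mem_filter, mem_univ, true_and, not_and, not_forall] at hi
    obtain ⟨j, hj, hj'⟩ := hi.2 hi.1
    rw [mem_biUnion]
    exact ⟨j, by simpa using hj', by simpa using hj⟩
  have h6 : (Z \ good B).card ≤ ∑ j ∈ univ.filter (fun j => ¬ b B j < w j), (b B j - 1) := by
    refine (card_le_card h5).trans (card_biUnion_le.trans ?_)
    refine sum_le_sum fun j hj => ?_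
    simp only [mem_filter, mem_univ, true_and, not_lt] at hj
    have h7 := card_in j
    omega
  have h8 := sum_filter_add_sum_filter_not (univ : Finset (Fin k)) (fun j => b B j < w j)
    (fun j => b B j - 1)
  have h9 : Z.card ≤ (good B).card + (Z \ good B).card := by
    have : Z ⊆ good B ∪ (Z \ good B) := by
      intro x hx
      by_cases h : x ∈ good B
      · exact mem_union_left _ h
      · exact mem_union_right _ (mem_sdiff.2 ⟨hx, h⟩)
    exact (card_le_card this).trans (card_union_le _ _)
  omega

/-- the choices available for a good vertex -/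
lemma card_choices (hk : 1 ≤ k) (B : Finset (Fin k × Fin k)) {i : Fin k} (hi : i ∈ good B) :
    ∏ j ∈ N i, (w j - b B j) ≤ ((fam k).filter (fun F => Disjoint F B ∧ block i ⊆ F)).card := by
  classical
  set z : Fin k := ⟨0, by omega⟩ with hz
  set t : Fin k → Finset (Fin k) := fun j =>
    if adj i j then univ.filter (fun a => a.1 < w j ∧ (j, a) ∉ B) else {z} with ht
  have hcard : ∀ j ∈ N i, (t j).card = w j - b B j := by
    intro j hj
    simp only [N, mem_filter, mem_univ, true_and] at hj
    have h1 : (t j).card = (block j \ B).card := by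
      simp only [ht, if_pos hj]
      refine card_bij (fun a _ => (j, a)) ?_ ?_ ?_
      · intro a ha
        simp only [mem_filter, mem_univ, true_and] at ha
        simp only [mem_sdiff, block, mem_filter, mem_univ, true_and]
        exact ha
      · intro a _ a' _ h
        exact (Prod.mk.inj h).2
      · intro p hp
        simp only [mem_sdiff, block, mem_filter, mem_univ, true_and] at hp
        obtain ⟨⟨h1, h2⟩, h3⟩ := hp
        refine ⟨p.2, ?_, Prod.ext h1.symm rfl⟩
        simp only [mem_filter, mem_univ, true_and]
        refine ⟨h2, ?_⟩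
        rw [← h1]
        exact h3
    have h2 := card_sdiff_add_card_inter (block j) B
    rw [card_block] at h2
    unfold b
    rw [h1, inter_comm]
    omega
  have hprod : ∏ j ∈ N i, (w j - b B j) = (Fintype.piFinset t).card := by
    rw [Fintype.card_piFinset]
    rw [← prod_subset (subset_univ (N i))]
    · exact prod_congr rfl (fun j hj => (hcard j hj).symm)
    · intro j _ hj
      have : ¬ adj i j := by simpa [N] using hj
      simp [ht, if_neg this]
  rw [hprod]
  have hgood := hi
  simp only [good, mem_filter, mem_univ, true_and] at hgood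
  refine card_le_card_of_injOn (fun g => edge i g) ?_ ?_
  · intro g hg
    rw [mem_coe, Fintype.mem_piFinset] at hg
    rw [mem_coe, mem_filter]
    have hg1 : ∀ j, adj i j → (g j).1 < w j ∧ (j, g j) ∉ B := by
      intro j hj
      have := hg j
      simp only [ht, if_pos hj, mem_filter, mem_univ, true_and] at this
      exact this
    refine ⟨?_, ?_, ?_⟩
    · simp only [fam, mem_filter, mem_univ, true_and]
      refine ⟨i, g, ?_, rfl⟩
      intro j
      by_cases hj : adj i j
      · exact (hg1 j hj).1
      · have h1 := hg j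
        simp only [ht, if_neg hj, mem_singleton] at h1
        rw [h1]
        exact w_pos j
    · rw [Finset.disjoint_left]
      intro p hp hpB
      rw [mem_edge] at hp
      rcases hp with hp | ⟨h1, h2⟩
      · have h3 : p ∈ B ∩ block i := mem_inter.2 ⟨hpB, hp⟩
        have h4 : 0 < b B i := card_pos.2 ⟨p, h3⟩
        omega
      · apply (hg1 p.1 h1).2
        rw [← h2]
        exact hpB
    · exact fun p hp => mem_edge.2 (Or.inl hp)
  · intro g hg g' hg' h
    rw [mem_coe, Fintype.mem_piFinset] at hg hg'
    funext j
    by_cases hj : adj i j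
    · have h1 : (j, g j) ∈ edge i g' := by
        have h2 : (j, g j) ∈ edge i g := mem_edge.2 (Or.inr ⟨hj, rfl⟩)
        rw [← show edge i g = edge i g' from h]
        exact h2
      rw [mem_edge] at h1
      rcases h1 with h1 | h1
      · exfalso
        simp only [block, mem_filter, mem_univ, true_and] at h1
        have hji : j = i := h1.1
        rw [hji] at hj
        exact adj_irrefl _ hj
      · exact h1.2
    · have h1 := hg j
      have h2 := hg' j
      simp only [ht, if_neg hj, mem_singleton] at h1 h2
      rw [h1, h2]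

/-- the number of members avoiding `B` -/
lemma count_two (hk : 5 ≤ k) (B : Finset (Fin k × Fin k)) (hB : B.card ≤ k - 1) :
    2 ≤ ((fam k).filter (fun F => Disjoint F B)).card ∧
      2 ^ (k / 2 - 3) ≤ ((fam k).filter (fun F => Disjoint F B)).card := by
  classical
  have hg := card_good B (by omega) hB
  obtain ⟨i, hi⟩ : (good B).Nonempty := by rw [← card_pos]; omega
  have hgood := hi
  simp only [good, mem_filter, mem_univ, true_and] at hgood
  -- the tight out-neighbours
  set T : Finset (Fin k) := (N i).filter (fun j => w j - b B j = 1) with hT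
  have hTN : T ⊆ N i := filter_subset _ _
  have hlt : ∀ j ∈ N i, b B j < w j := by
    intro j hj
    simp only [N, mem_filter, mem_univ, true_and] at hj
    exact hgood.2 j hj
  have hprod : 2 ^ ((N i).card - T.card) ≤ ∏ j ∈ N i, (w j - b B j) := by
    have h1 : ∏ j ∈ N i, (w j - b B j)
        = (∏ j ∈ T, (w j - b B j)) * ∏ j ∈ N i \ T, (w j - b B j) := by
      rw [mul_comm, prod_sdiff hTN]
    have h2 : ∏ j ∈ T, (w j - b B j) = 1 :=
      prod_eq_one (fun j hj => (mem_filter.1 hj).2)
    have h3 : 2 ^ (N i \ T).card ≤ ∏ j ∈ N i \ T, (w j - b B j) := by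
      rw [← prod_const]
      refine prod_le_prod' (fun j hj => ?_)
      rw [mem_sdiff, hT, mem_filter, not_and] at hj
      have h4 := hj.2 hj.1
      have h5 := hlt j hj.1
      omega
    rw [h1, h2, one_mul, ← card_sdiff_of_subset hTN]
    exact h3
  have hsub : ((fam k).filter (fun F => Disjoint F B ∧ block i ⊆ F)).card
      ≤ ((fam k).filter (fun F => Disjoint F B)).card := by
    refine card_le_card ?_
    intro F hF
    rw [mem_filter] at hF ⊢
    exact ⟨hF.1, hF.2.1⟩
  have hmain := hprod.trans ((card_choices (by omega) B hi).trans hsub)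
  have hN := le_card_N i
  have htight : ∀ j ∈ T, k - k / 2 ≤ b B j + 1 := by
    intro j hj
    have h1 := (mem_filter.1 hj).2
    have h2 := w_ge j
    omega
  have hT2 : T.card ≤ 2 := by
    by_contra hcon
    have h1 : T.card * (k - k / 2 - 1) ≤ ∑ j ∈ T, b B j := by
      rw [← smul_eq_mul, ← sum_const]
      refine sum_le_sum fun j hj => ?_
      have := htight j hj
      omega
    have h2 : ∑ j ∈ T, b B j ≤ ∑ j, b B j :=
      sum_le_sum_of_subset (subset_univ _)
    have h3 := sum_b_le B
    have h4 : 3 * (k - k / 2 - 1) ≤ T.card * (k - k / 2 - 1) :=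
      Nat.mul_le_mul_right _ (by omega)
    omega
  constructor
  · rcases Nat.eq_zero_or_pos T.card with h0 | h0
    · have h1 : 2 ^ 1 ≤ 2 ^ ((N i).card - T.card) :=
        Nat.pow_le_pow_right (by norm_num) (by omega)
      omega
    · -- a second good vertex
      obtain ⟨j, hj⟩ := card_pos.1 h0
      have h1 : 1 ≤ b B j - 1 := by
        have := htight j hj
        omega
      have h2 : b B j - 1 ≤ ∑ j ∈ univ.filter (fun j => b B j < w j), (b B j - 1) := by
        refine single_le_sum (f := fun j => b B j - 1) (fun _ _ => Nat.zero_le _) ?_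
        simp only [mem_filter, mem_univ, true_and]
        exact hlt j (hTN hj)
      have h3 : 1 < (good B).card := by omega
      obtain ⟨i', hi', hne⟩ : ∃ i' ∈ good B, i' ≠ i := by
        obtain ⟨a, ha, b', hb', hab⟩ := one_lt_card.1 h3
        by_cases h : a = i
        · exact ⟨b', hb', fun h' => hab (h.trans h'.symm)⟩
        · exact ⟨a, ha, h⟩
      have hpos : ∀ i ∈ good B, ∃ g : Fin k → Fin k, edge i g ∈ fam k ∧ Disjoint (edge i g) B := by
        intro i hi
        have h4 := card_choices (by omega) B hi
        have h5 : 0 < ∏ j ∈ N i, (w j - b B j) := by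
          refine prod_pos (fun j hj => ?_)
          have h6 := hi
          simp only [good, mem_filter, mem_univ, true_and] at h6
          simp only [N, mem_filter, mem_univ, true_and] at hj
          have := h6.2 j hj
          omega
        -- choose points directly
        have h7 : ∀ j, ∃ a : Fin k, a.1 < w j ∧ (adj i j → (j, a) ∉ B) := by
          intro j
          by_cases hj : adj i j
          · have h6 := hi
            simp only [good, mem_filter, mem_univ, true_and] at h6
            have h8 := h6.2 j hj
            have h9 : ¬ block j ⊆ B := by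
              intro h
              have : b B j = w j := by
                unfold b
                rw [inter_eq_right.2 h, card_block]
              omega
            rw [not_subset] at h9
            obtain ⟨p, hp, hpB⟩ := h9
            simp only [block, mem_filter, mem_univ, true_and] at hp
            refine ⟨p.2, hp.2, fun _ => ?_⟩
            rw [← hp.1]
            exact hpB
          · exact ⟨⟨0, by omega⟩, w_pos j, fun h => absurd h hj⟩
        choose g hg1 hg2 using h7
        refine ⟨g, ?_, ?_⟩
        · simp only [fam, mem_filter, mem_univ, true_and]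
          exact ⟨i, g, hg1, rfl⟩
        · rw [Finset.disjoint_left]
          intro p hp hpB
          rw [mem_edge] at hp
          rcases hp with hp | ⟨h8, h9⟩
          · have h6 := hi
            simp only [good, mem_filter, mem_univ, true_and] at h6
            have h10 : p ∈ B ∩ block i := mem_inter.2 ⟨hpB, hp⟩
            have h11 : 0 < b B i := card_pos.2 ⟨p, h10⟩
            omega
          · apply hg2 p.1 h8
            rw [← h9]
            exact hpB
      obtain ⟨g, hg1, hg2⟩ := hpos i hi
      obtain ⟨g', hg1', hg2'⟩ := hpos i' hi'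
      have hne' : edge i g ≠ edge i' g' := by
        intro h
        -- the block `i` has at least two points, but `edge i' g'` has at most one there
        have h4 : block i ⊆ (univ.filter (fun p : Fin k × Fin k => p = (i, g' i))) := by
          intro p hp
          have h5 : p ∈ edge i' g' := by
            rw [← h]
            exact mem_edge.2 (Or.inl hp)
          have h6 : p.1 = i := by
            simp only [block, mem_filter, mem_univ, true_and] at hp
            exact hp.1
          rw [mem_edge] at h5
          rcases h5 with h5 | h5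
          · exfalso
            simp only [block, mem_filter, mem_univ, true_and] at h5
            exact hne (h5.1.symm.trans h6)
          · simp only [mem_filter, mem_univ, true_and]
            refine Prod.ext h6 ?_
            rw [h5.2, h6]
        have h5 := card_le_card h4
        rw [card_block] at h5
        have h6 : (univ.filter (fun p : Fin k × Fin k => p = (i, g' i))).card = 1 := by
          rw [filter_eq' univ]
          simp
        have h7 := w_ge i
        omega
      have h4 : ({edge i g, edge i' g'} : Finset _) ⊆ (fam k).filter (fun F => Disjoint F B) := by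
        intro F hF
        rw [mem_insert, mem_singleton] at hF
        rw [mem_filter]
        rcases hF with rfl | rfl
        · exact ⟨hg1, hg2⟩
        · exact ⟨hg1', hg2'⟩
      have h5 := card_le_card h4
      rw [card_pair hne'] at h5
      exact h5
  · refine le_trans (Nat.pow_le_pow_right (by norm_num) ?_) hmain
    omega

end Tournament

/-- `k ≥ 5` -/
lemma m_ge_five {k : ℕ} (hk : 5 ≤ k) : ((max 2 (2 ^ (k / 2 - 3)) : ℕ) : ℕ∞) ≤ m k (k - 1) := by
  classical
  refine le_m (by omega) (by simp) (fam k) ?_ (fun F hF F' hF' => fam_inter F F' hF hF') ?_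
  · intro F hF
    simp only [fam, mem_filter, mem_univ, true_and] at hF
    obtain ⟨i, g, _, rfl⟩ := hF
    exact card_edge i g
  · intro B hB
    exact max_le (count_two hk B hB).1 (count_two hk B hB).2

/-! ### Projective planes of order two and three -/

/-- the lines of the Fano plane -/
def line2 (t : Fin 7) : Finset (Fin 7) := {t, t + 1, t + 3}

/-- the lines of the projective plane of order three -/
def line3 (t : Fin 13) : Finset (Fin 13) := {t, t + 1, t + 3, t + 9}

lemma m_three : ((2 : ℕ) : ℕ∞) ≤ m 3 2 := by
  classical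
  have h := le_m (α := Fin 7) (k := 3) (t := 2) (by norm_num) (by norm_num)
    (univ.image line2) ?_ ?_ ?_
  · exact h
  · intro F hF
    obtain ⟨t, _, rfl⟩ := mem_image.1 hF
    revert t
    decide
  · intro F hF F' hF'
    obtain ⟨t, _, rfl⟩ := mem_image.1 hF
    obtain ⟨s, _, rfl⟩ := mem_image.1 hF'
    revert t s
    decide
  · intro B hB
    obtain ⟨a, c, hac⟩ : ∃ a c : Fin 7, B ⊆ {a, c} := by
      have h1 : B.card ≤ 2 := hB
      rcases Nat.lt_or_ge B.card 2 with h2 | h2
      · rcases Nat.lt_or_ge B.card 1 with h3 | h3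
        · have : B = ∅ := card_eq_zero.1 (by omega)
          exact ⟨0, 0, by rw [this]; exact empty_subset _⟩
        · obtain ⟨a, ha⟩ := card_eq_one.1 (show B.card = 1 by omega)
          exact ⟨a, a, by rw [ha]; simp⟩
      · obtain ⟨a, c, _, h3⟩ := card_eq_two.1 (show B.card = 2 by omega)
        exact ⟨a, c, by rw [h3]⟩
    have key : ∀ a c : Fin 7, 2 ≤ (univ.filter (fun t : Fin 7 => Disjoint (line2 t) {a, c})).card := by
      decide +kernel
    have hinj : Function.Injective line2 := by
      intro s t h
      revert s t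
      decide
    refine (key a c).trans ?_
    refine card_le_card_of_injOn line2 ?_ hinj.injOn
    intro t ht
    simp only [coe_filter, mem_univ, true_and, Set.mem_ofPred_eq] at ht
    rw [mem_coe, mem_filter]
    exact ⟨mem_image_of_mem _ (mem_univ t), Finset.disjoint_of_subset_right hac ht⟩

lemma m_four : ((2 : ℕ) : ℕ∞) ≤ m 4 3 := by
  classical
  have h := le_m (α := Fin 13) (k := 4) (t := 2) (by norm_num) (by norm_num)
    (univ.image line3) ?_ ?_ ?_
  · exact h
  · intro F hF
    obtain ⟨t, _, rfl⟩ := mem_image.1 hF
    revert t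
    decide
  · intro F hF F' hF'
    obtain ⟨t, _, rfl⟩ := mem_image.1 hF
    obtain ⟨s, _, rfl⟩ := mem_image.1 hF'
    revert t s
    decide +kernel
  · intro B hB
    obtain ⟨a, c, d, hac⟩ : ∃ a c d : Fin 13, B ⊆ {a, c, d} := by
      have h1 : B.card ≤ 3 := hB
      obtain ⟨C, hBC, hC⟩ := exists_superset_card_eq (s := B) (n := 3) h1 (by simp)
      obtain ⟨a, c, d, _, _, _, h3⟩ := card_eq_three.1 hC
      exact ⟨a, c, d, by rw [← h3]; exact hBC⟩
    have key : ∀ a c d : Fin 13,
        2 ≤ (univ.filter (fun t : Fin 13 => Disjoint (line3 t) {a, c, d})).card := by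
      decide +kernel
    have hinj : Function.Injective line3 := by
      intro s t h
      revert s t
      decide +kernel
    refine (key a c d).trans ?_
    refine card_le_card_of_injOn line3 ?_ hinj.injOn
    intro t ht
    simp only [coe_filter, mem_univ, true_and, Set.mem_ofPred_eq] at ht
    rw [mem_coe, mem_filter]
    exact ⟨mem_image_of_mem _ (mem_univ t), Finset.disjoint_of_subset_right hac ht⟩

/-- **Theorem.** There is an absolute constant `c > 1` with `m(k, k - 1) > c ^ k` for all
`k ≥ 3`. -/
theorem result : ∃ c : ℝ, 1 < c ∧ ∀ k : ℕ, 3 ≤ k → ∃ t : ℕ, c ^ k < (t : ℝ) ∧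
    (t : ℕ∞) ≤ m k (k - 1) := by
  have hc16 : (1.04 : ℝ) ^ 16 < 2 := by norm_num
  have hsmall : ∀ k : ℕ, k ≤ 16 → (1.04 : ℝ) ^ k < 2 := fun k hk =>
    lt_of_le_of_lt (pow_le_pow_right₀ (by norm_num) hk) hc16
  refine ⟨1.04, by norm_num, fun k hk => ?_⟩
  rcases Nat.lt_or_ge k 5 with h5 | h5
  · refine ⟨2, by exact_mod_cast hsmall k (by omega), ?_⟩
    have : k = 3 ∨ k = 4 := by omega
    rcases this with rfl | rfl
    · exact m_three
    · exact m_four
  · refine ⟨max 2 (2 ^ (k / 2 - 3)), ?_, m_ge_five h5⟩
    rcases Nat.lt_or_ge k 16 with h16 | h16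
    · refine lt_of_lt_of_le (hsmall k h16.le) ?_
      exact_mod_cast le_max_left 2 (2 ^ (k / 2 - 3))
    · have h1 : (1.04 : ℝ) ^ k < 2 ^ (k / 16 + 1) := by
        have e : k = 16 * (k / 16) + k % 16 := by omega
        calc (1.04 : ℝ) ^ k = ((1.04 : ℝ) ^ 16) ^ (k / 16) * (1.04 : ℝ) ^ (k % 16) := by
              rw [← pow_mul, ← pow_add, ← e]
          _ < 2 ^ (k / 16) * 2 := by
              refine mul_lt_mul' ?_ (hsmall _ (by omega)) (by positivity) (by positivity)
              exact pow_le_pow_left₀ (by positivity) hc16.le _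
          _ = 2 ^ (k / 16 + 1) := by rw [pow_succ]
      have h2 : (2 : ℝ) ^ (k / 16 + 1) ≤ 2 ^ (k / 2 - 3) :=
        pow_le_pow_right₀ (by norm_num) (by omega)
      refine lt_of_lt_of_le (h1.trans_le h2) ?_
      exact_mod_cast le_max_right 2 (2 ^ (k / 2 - 3))

end Pool.Agent.Results.MP_2b3591_co.ExponentialGrowth
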